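import Pool.Agent.Helper11_K9.DT3
import Pool.Agent.Helper57_K9.Stmts3

/-!
# Squad K9, part KL, module KL_DTL (helper9): blocks with defect groups of order `ℓ`

Adapted from helper11's DT3.
-/

set_option autoImplicit false

open scoped BigOperators

noncomputable section

namespace Pool.Agent.PP.K9.H9

open Pool.Agent.Helper51_AWC Pool.Agent.Helper79_WRA Pool.Agent.PP Pool.Agent.PP.KF
open Pool.Agent.PP.K9.H11

attribute [local instance] Ideal.Quotient.field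

/-- `Rc` and automorphisms -/
theorem rc_comp' {ℓ : ℕ} {H : Type} [Group H] {κ : H → ℂ} (h : Rc ℓ κ) (τ : H ≃* H) :
    Rc ℓ (fun x => κ (τ x)) where
  cl x y := by
    rw [map_mul, map_mul, map_inv, h.cl]
  sg x hx := by
    apply h.sg
    intro h1
    apply hx
    unfold Reg at h1 ⊢
    rwa [MulEquiv.orderOf_eq] at h1

/-- the elements different from one of a cyclic group of order `ℓ` -/
theorem pow_of_ne' {G : Type} [Group G] [Finite G] {v w : G} {ℓ : ℕ} (hv : orderOf v = ℓ)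
    (hw : w ∈ Subgroup.zpowers v) (hw1 : w ≠ 1) : ∃ j ∈ Finset.Ico 1 ℓ, w = v ^ j := by
  classical
  rw [mem_zpowers_iff_mem_range_orderOf, Finset.mem_image] at hw
  obtain ⟨j, hj, rfl⟩ := hw
  rw [Finset.mem_range, hv] at hj
  refine ⟨j, Finset.mem_Ico.2 ⟨?_, hj⟩, rfl⟩
  rcases Nat.eq_zero_or_pos j with h | h
  · rw [h, pow_zero] at hw1
    exact absurd rfl hw1
  · exact h

theorem pow_ne' {G : Type} [Group G] {v : G} {ℓ : ℕ} (hv : orderOf v = ℓ) {j : ℕ}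
    (hj : j ∈ Finset.Ico 1 ℓ) : v ^ j ≠ 1 := by
  rw [Finset.mem_Ico] at hj
  exact pow_ne_one_of_lt_orderOf (by omega) (by omega)

theorem dtl (kap : KapStmt) (val : ValStmt) (grm : GrmStmt) (sec : SecStmt) (cnj : CnjStmt)
    (int : IntStmt) (azr : AzrStmt) (nz : NzStmt) (prg : PrgStmt) (trn : TrnStmt) : DtlStmt := by
  intro ℓ _ M _ hM G _ _ e he V hV hVl
  classical
  have hF : GoodF ℓ (FF M) := H50.fld ℓ Fact.out M hM
  -- a generator of `V`
  obtain ⟨v, hv, rfl⟩ : ∃ v : G, orderOf v = ℓ ∧ Subgroup.zpowers v = V := by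
    obtain ⟨x, hx⟩ := exists_prime_orderOf_dvd_card' (G := V) ℓ (by rw [hVl])
    refine ⟨x, by rw [Subgroup.orderOf_coe, hx], ?_⟩
    apply Subgroup.eq_of_le_of_card_ge
    · rw [Subgroup.zpowers_le]
      exact x.2
    · rw [hVl, Nat.card_zpowers, Subgroup.orderOf_coe, hx]
  have hπ : Qt ℓ v (pq v) := qt hv
  have hfin : Finite (Hq v) := inferInstance
  have hc' : Cu v ≤ Subgroup.centralizer (Subgroup.zpowers v : Set G) := by
    intro x hx
    rw [Subgroup.mem_centralizer_iff]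
    rintro _ ⟨k, rfl⟩
    have : Commute x v := Subgroup.mem_centralizer_singleton_iff.1 hx
    exact (this.zpow_right k).eq.symm
  have hab : ∀ a ∈ Subgroup.zpowers v, ∀ b ∈ Subgroup.zpowers v, a * b = b * a := by
    rintro _ ⟨i, rfl⟩ _ ⟨j, rfl⟩
    exact ((Commute.refl v).zpow_zpow i j).eq
  have heC : IsIdem (fun t : Cu v => e t) := idem_cu hF he.1 hv
  -- a block of the centraliser
  obtain ⟨g, hg, hge⟩ := hV.gd
  have hgC : g ∈ Cu v := Subgroup.mem_centralizer_singleton_iff.2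
    (Subgroup.mem_centralizer_iff.1 hg v (Subgroup.mem_zpowers v)).symm
  obtain ⟨γ, hγ, hγe, -⟩ := H69.exists_blk heC (g := ⟨g, hgC⟩) hge
  obtain ⟨κ, hk, hr⟩ := kap ℓ M hM G (Hq v) e he v hV (pq v) hπ γ hγ hγe
  have hki : κ ∈ Irr (Hq v) := by
    have h2 : κ ∈ IrrE M (H75.push (pq v) γ) := by rw [hk]; rfl
    exact h2.1
  have hfi : (Irr G).Finite := by
    have := Fintype.ofFinite G
    exact irr_finite'
  have := (hfi.subset (irrE_sub M e)).fintype
  have hirr := irrE_sub M e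
  -- a primitive root of unity
  obtain ⟨ζ, hζ⟩ : ∃ ζ : ℂ, IsPrimitiveRoot ζ ℓ :=
    ⟨_, Complex.isPrimitiveRoot_exp ℓ (Fact.out : ℓ.Prime).ne_zero⟩
  -- degrees
  have hdeg : ∀ θ : IrrE M e, ∃ d : ℕ, 0 < d ∧ θ.1 1 = d := fun θ => irr_one (hirr θ.2)
  choose deg hd0 hd using hdeg
  have hpw : ∀ j ∈ Finset.Ico 1 ℓ, v ^ j ≠ 1 := fun j hj => pow_ne' hv hj
  have hpz : ∀ j : ℕ, v ^ j ∈ Subgroup.zpowers v := fun j => Subgroup.npow_mem_zpowers v j
  -- the values outside the block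
  have hout : ∀ w ∈ Subgroup.zpowers v, w ≠ 1 →
      ∀ χ ∈ Irr G, χ ∉ IrrE M e → Av ℓ (pq v) w κ χ = 0 := by
    intro w hw hw1 χ hχ hχ'
    exact azr ℓ M hM G (Hq v) v (pq v) hπ e he.1 γ hγ.1 hγe κ
      (Submodule.subset_span (by rw [hk]; rfl)) hr w hw hw1 χ hχ hχ'
  -- integers
  have hint : ∀ θ : IrrE M e, ∃ m : ℕ → ℤ, ∀ j : ℕ,
      Av ℓ (pq v) (v ^ j) κ θ.1 = ∑ i ∈ Finset.range ℓ, (m i : ℂ) * ζ ^ (i * j) := fun θ =>
    int ℓ G (Hq v) v (pq v) hπ κ (AddSubgroup.subset_closure hki) hr θ.1 (hirr θ.2) ζ hζ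
  choose a ha using hint
  have hmain := grm ℓ (IrrE M e) ζ hζ a deg (fun j θ => Av ℓ (pq v) (v ^ j) κ θ.1)
    (fun θ => (hd0 θ).ne') (fun j θ => ha θ j) ?_ ?_
  rotate_left
  · intro j hj
    have hsec := sec ℓ G (Hq v) v (pq v) hπ κ κ hr hr _ (hpz j) (hpw j hj)
    refine ⟨fun θ => ?_, ?_, ?_⟩
    · intro h0
      have h1 := (prg ℓ M hM).2 G (Hq v) v (pq v) hπ γ hγ.1 _ (hpz j) θ.1 (hirr θ.2)
      rw [pr_single hk, Av_smul, h0, mul_zero] at h1
      refine nz ℓ M hM G e he _ hV hab v (Subgroup.mem_zpowers v) γ hγ hγe ?_ _ (hpz j)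
        θ.1 θ.2 h1.symm
      obtain ⟨c, hc⟩ : ∃ c, γ c ≠ 0 := by
        by_contra hcon
        push Not at hcon
        exact hγ.2.1 (funext hcon)
      refine ⟨c, ?_, hc⟩
      rw [Subgroup.mem_centralizer_iff]
      intro x hx
      apply Subtype.ext
      exact Subgroup.mem_centralizer_iff.1 (hc' c.2) x.1 (Subgroup.mem_subgroupOf.1 hx)
    · have h1 := hsec.1
      rw [ipn_self hki, mul_one, sum_irr hirr _ (fun χ hχ hχ' => by
        rw [hout _ (hpz j) (hpw j hj) χ hχ hχ', zero_mul])] at h1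
      exact h1
    · have h1 := hsec.2.1
      rw [sum_irr hirr _ (fun χ hχ hχ' => by
        rw [hout _ (hpz j) (hpw j hj) χ hχ hχ', zero_mul])] at h1
      rw [← h1]
      exact Finset.sum_congr rfl fun θ _ => by rw [hd θ]
  · intro j hj j' hj'
    by_cases hcj : ∃ t : G, v ^ j' = t * v ^ j * t⁻¹
    · obtain ⟨t, ht⟩ := hcj
      obtain ⟨τ, hτ⟩ := cnj ℓ G (Hq v) v (pq v) hπ _ (hpz j) (hpw j hj) _ (hpz j') t ht
      have h3 : ∀ θ : IrrE M e, Av ℓ (pq v) (v ^ j') κ θ.1 =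
          Av ℓ (pq v) (v ^ j) (fun h => κ (τ h)) θ.1 := fun θ => hτ κ θ.1 (hirr θ.2)
      by_cases hne : κ = fun h => κ (τ h)
      · left
        intro θ
        rw [h3, ← hne]
      · right
        change ∑ θ : IrrE M e, Av ℓ (pq v) (v ^ j) κ θ.1 *
          starRingEnd ℂ (Av ℓ (pq v) (v ^ j') κ θ.1) = 0
        simp only [h3]
        have h1 := (sec ℓ G (Hq v) v (pq v) hπ κ _ hr (rc_comp' hr τ) _ (hpz j) (hpw j hj)).1
        rw [ipn_ne (irr_comp hki τ) hki (Ne.symm hne), mul_zero,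
          sum_irr hirr _ (fun χ hχ hχ' => by
            rw [hout _ (hpz j) (hpw j hj) χ hχ hχ', zero_mul])] at h1
        exact h1
    · right
      have h1 := (sec ℓ G (Hq v) v (pq v) hπ κ κ hr hr _ (hpz j) (hpw j hj)).2.2 _ (hpz j')
        (hpw j' hj') hcj
      rw [sum_irr hirr _ (fun χ hχ hχ' => by
        rw [hout _ (hpz j) (hpw j hj) χ hχ hχ', zero_mul])] at h1
      exact h1
  obtain ⟨n, m, c, w, g, h, hn, hm, hc, hw, hch, hgh, hsum, d, hdd⟩ := hmain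
  -- the virtual characters
  have hmem : ∀ b : IrrE M e → ℤ, (∑ θ : IrrE M e, b θ • (θ : G → ℂ)) ∈ ZE M e := fun b =>
    AddSubgroup.sum_mem _ fun θ _ => AddSubgroup.zsmul_mem _ (AddSubgroup.subset_closure θ.2) _
  have hRc : ∀ b : IrrE M e → ℤ,
      (∀ j ∈ Finset.Ico 1 ℓ, ∑ θ, (b θ : ℂ) * Av ℓ (pq v) (v ^ j) κ θ.1 = 0) →
      Rc ℓ (∑ θ : IrrE M e, b θ • (θ : G → ℂ)) := by
    intro b hb
    refine ⟨?_, ?_⟩
    · intro x y
      rw [Finset.sum_apply, Finset.sum_apply]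
      refine Finset.sum_congr rfl fun θ _ => ?_
      rw [Pi.smul_apply, Pi.smul_apply, irr_conj (hirr θ.2)]
    · refine val ℓ M hM G (Hq v) e he v hV (pq v) hπ _ (ze_span M e (hmem b)) ?_
      intro γ' hγ' hγe' κ' hk' w hw hw1
      obtain ⟨κ'', hk'', -⟩ := kap ℓ M hM G (Hq v) e he v hV (pq v) hπ γ' hγ' hγe'
      have h1 : κ' = κ'' := by rw [hk''] at hk'; exact hk'
      subst h1
      obtain ⟨w', hw', hw1', hA⟩ := trn ℓ M hM G (Hq v) e he v hV (pq v) hπ γ γ' hγ hγ' hγe hγe'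
        κ κ' hk hk'' w hw hw1
      obtain ⟨j, hj, rfl⟩ := pow_of_ne' hv hw' hw1'
      rw [Av_comb, ← hb j hj]
      exact Finset.sum_congr rfl fun θ _ => by rw [hA θ.1 (hirr θ.2)]
  have hap : ∀ (b : IrrE M e → ℤ) (x : G), (∑ θ : IrrE M e, b θ • (θ : G → ℂ)) x =
      ∑ θ : IrrE M e, (b θ : ℂ) * (θ : G → ℂ) x := by
    intro b x
    rw [Finset.sum_apply]
    exact Finset.sum_congr rfl fun θ _ => by rw [Pi.smul_apply, zsmul_eq_mul]
  have hpr : pr M e = fun g => ∑ θ : IrrE M e, (deg θ : ℂ) * (θ : G → ℂ) g := by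
    funext g
    rw [pr, ← finsum_set_coe_eq_finsum_mem (IrrE M e) (f := fun χ : G → ℂ => χ 1 * χ g),
      finsum_eq_sum_of_fintype]
    exact Finset.sum_congr rfl fun θ _ => by rw [hd θ]
  refine ⟨n, m, c, w, fun r => ∑ θ : IrrE M e, g r θ • (θ : G → ℂ),
    fun r s => ∑ θ : IrrE M e, h r s θ • (θ : G → ℂ), hn, hm, hc, hw,
    fun r => ⟨hmem _, hRc _ fun j hj => (hgh j hj).1 r⟩,
    fun r s => ⟨hmem _, hRc _ fun j hj => (hgh j hj).2 r s⟩, ?_, ?_, d, ?_⟩
  · intro r s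
    funext x
    rw [Pi.smul_apply, Pi.sub_apply, Pi.smul_apply, Pi.smul_apply]
    beta_reduce
    rw [hap, hap, hap, smul_eq_mul,
      smul_eq_mul, smul_eq_mul, Finset.mul_sum, Finset.mul_sum, Finset.mul_sum,
      ← Finset.sum_sub_distrib]
    refine Finset.sum_congr rfl fun θ _ => ?_
    have h1 : ((c * h r s θ : ℤ) : ℂ) = ((w s * g r θ - w r * g s θ : ℤ) : ℂ) := by
      rw [hch r s θ]
    push_cast at h1
    linear_combination (θ : G → ℂ) x * h1
  · simp only [ipn_comb hirr]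
    have h1 := congrArg (fun z : ℤ => (z : ℂ)) hsum
    push_cast at h1
    push_cast
    exact h1
  · rw [hpr]
    funext x
    rw [Finset.sum_apply]
    have h2 : ∀ r : Fin n, (d r • (∑ θ : IrrE M e, g r θ • (θ : G → ℂ))) x =
        ∑ θ : IrrE M e, d r * ((g r θ : ℂ) * (θ : G → ℂ) x) := by
      intro r
      rw [Pi.smul_apply, hap, smul_eq_mul, Finset.mul_sum]
    simp only [h2]
    rw [Finset.sum_comm]
    refine Finset.sum_congr rfl fun θ _ => ?_
    rw [hdd θ, Finset.sum_mul]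
    exact Finset.sum_congr rfl fun r _ => by ring

end Pool.Agent.PP.K9.H9
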